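import Pool.Agent.H23.LC.Targets

/-!
# The angular part of a Hecke character
-/

set_option autoImplicit false

open NumberField NumberField.InfinitePlace NumberField.Units
  NumberField.Units.dirichletUnitTheorem MeasureTheory Set Filter Complex
open scoped nonZeroDivisors ENNReal

namespace Pool.Agent.H64.GLB

open Pool.Agent.H25.HK Pool.Agent.H23.LB Pool.Agent.H23.LC

section
variable {K : Type} [Field K]

theorem ag_one_norm (v : InfinitePlace K) (x : K) (hx : x ≠ 0) :
    ‖v.embedding x / ((v x : ℝ) : ℂ)‖ = 1 := by
  have h1 : 0 < v x := InfinitePlace.pos_iff.2 hx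
  rw [norm_div, InfinitePlace.norm_embedding_eq, Complex.norm_real, Real.norm_of_nonneg h1.le,
    div_self h1.ne']

end

theorem pf_AG : U_AG := by
  intro K _ _ k
  refine ⟨?_, ?_, ?_, ?_, ?_, ?_⟩
  · intro x y hx hy
    unfold ag
    rw [← Finset.prod_mul_distrib]
    refine Finset.prod_congr rfl fun v _ => ?_
    rw [← mul_zpow]
    congr 1
    rw [map_mul, map_mul]
    push_cast
    ring
  · intro x hx
    unfold ag
    rw [norm_prod]
    refine Finset.prod_eq_one fun v _ => ?_
    rw [norm_zpow, ag_one_norm v x hx, one_zpow]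
  · unfold ag
    refine Finset.prod_eq_one fun v _ => ?_
    rw [map_one, map_one]
    simp
  · intro x hx
    unfold ag
    rw [map_prod]
    refine Finset.prod_congr rfl fun v _ => ?_
    rw [map_zpow₀, Pi.neg_apply, zpow_neg, ← inv_zpow]
    congr 1
    have h1 := ag_one_norm v x hx
    have h2 := Complex.mul_conj (v.embedding x / ((v x : ℝ) : ℂ))
    rw [Complex.normSq_eq_norm_sq, h1] at h2
    refine inv_eq_of_mul_eq_one_right ?_
    rw [h2]
    simp
  · intro x
    unfold ag
    refine Finset.prod_eq_one fun v _ => ?_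
    simp
  · intro hk
    obtain ⟨v, hv⟩ := Function.ne_iff.1 hk
    unfold ag
    refine Finset.prod_eq_zero (Finset.mem_univ v) ?_
    rw [map_zero, zero_div]
    exact zero_zpow _ hv

end Pool.Agent.H64.GLB
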