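import Pool.Agent.H23.LC.Targets

/-!
# The integrals over the angle at one place
-/

set_option autoImplicit false

open NumberField NumberField.InfinitePlace NumberField.Units
  NumberField.Units.dirichletUnitTheorem MeasureTheory Set Filter Complex
open scoped nonZeroDivisors ENNReal

namespace Pool.Agent.H64.GLB

open Pool.Agent.H25.HK Pool.Agent.H23.LB Pool.Agent.H23.LC

theorem two_pi_nn : (0 : ℝ) ≤ 2 * Real.pi := by positivity

theorem per_shift (G : ℝ → ℂ) (hG : Function.Periodic G (2 * Real.pi)) (α : ℝ) :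
    ∫ θ in Icc (0 : ℝ) (2 * Real.pi), G (θ + α) = ∫ θ in Icc (0 : ℝ) (2 * Real.pi), G θ := by
  rw [integral_Icc_eq_integral_Ioc, integral_Icc_eq_integral_Ioc,
    ← intervalIntegral.integral_of_le two_pi_nn, ← intervalIntegral.integral_of_le two_pi_nn,
    intervalIntegral.integral_comp_add_right]
  have h := hG.intervalIntegral_add_eq α 0
  rw [zero_add] at h ⊢
  rw [add_comm (2 * Real.pi) α]
  exact h

theorem per_refl (G : ℝ → ℂ) (hG : Function.Periodic G (2 * Real.pi)) (α : ℝ) :
    ∫ θ in Icc (0 : ℝ) (2 * Real.pi), G (α - θ) = ∫ θ in Icc (0 : ℝ) (2 * Real.pi), G θ := by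
  rw [integral_Icc_eq_integral_Ioc, integral_Icc_eq_integral_Ioc,
    ← intervalIntegral.integral_of_le two_pi_nn, ← intervalIntegral.integral_of_le two_pi_nn,
    intervalIntegral.integral_comp_sub_left]
  have h := hG.intervalIntegral_add_eq (α - 2 * Real.pi) 0
  rw [zero_add, sub_add_cancel] at h
  rw [sub_zero]
  exact h

/-- the integral at a real place -/
theorem real_int (F : ℂ → ℂ) :
    ∫ θ in Icc (0 : ℝ) (2 * Real.pi), F (if θ < Real.pi then 1 else -1) =
      (Real.pi : ℂ) * (F 1 + F (-1)) := by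
  have hpi := Real.pi_pos
  have hU : Icc (0 : ℝ) (2 * Real.pi) = Ico 0 Real.pi ∪ Icc Real.pi (2 * Real.pi) := by
    ext θ
    simp only [mem_Icc, mem_union, mem_Ico]
    constructor
    · rintro ⟨h1, h2⟩
      rcases lt_or_ge θ Real.pi with h | h
      · exact Or.inl ⟨h1, h⟩
      · exact Or.inr ⟨h, h2⟩
    · rintro (⟨h1, h2⟩ | ⟨h1, h2⟩)
      · exact ⟨h1, by linarith⟩
      · exact ⟨by linarith, h2⟩
  have hd : Disjoint (Ico (0 : ℝ) Real.pi) (Icc Real.pi (2 * Real.pi)) := by
    rw [Set.disjoint_left]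
    rintro θ ⟨_, h1⟩ ⟨h2, _⟩
    linarith
  have e1 : ∀ θ ∈ Ico (0 : ℝ) Real.pi, F (if θ < Real.pi then 1 else -1) = F 1 := by
    intro θ hθ
    rw [if_pos hθ.2]
  have e2 : ∀ θ ∈ Icc Real.pi (2 * Real.pi), F (if θ < Real.pi then 1 else -1) = F (-1) := by
    intro θ hθ
    rw [if_neg (not_lt.2 hθ.1)]
  have i1 : IntegrableOn (fun θ : ℝ => F (if θ < Real.pi then 1 else -1)) (Ico 0 Real.pi) := by
    refine IntegrableOn.congr_fun (f := fun _ => F 1) ?_ (fun θ hθ => (e1 θ hθ).symm)
      measurableSet_Ico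
    exact integrableOn_const (by simp)
  have i2 : IntegrableOn (fun θ : ℝ => F (if θ < Real.pi then 1 else -1))
      (Icc Real.pi (2 * Real.pi)) := by
    refine IntegrableOn.congr_fun (f := fun _ => F (-1)) ?_ (fun θ hθ => (e2 θ hθ).symm)
      measurableSet_Icc
    exact integrableOn_const (by simp)
  rw [hU, setIntegral_union hd measurableSet_Icc i1 i2,
    setIntegral_congr_fun measurableSet_Ico e1, setIntegral_congr_fun measurableSet_Icc e2,
    setIntegral_const, setIntegral_const]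
  have v1 : volume.real (Ico (0 : ℝ) Real.pi) = Real.pi := by
    rw [measureReal_def, Real.volume_Ico, sub_zero, ENNReal.toReal_ofReal hpi.le]
  have v2 : volume.real (Icc Real.pi (2 * Real.pi)) = Real.pi := by
    rw [measureReal_def, Real.volume_Icc, ENNReal.toReal_ofReal (by linarith)]
    ring
  rw [v1, v2]
  simp only [Complex.real_smul]
  ring

/-- the integral at a complex place -/
theorem cplx_int (c : ℂ) (hc : ‖c‖ = 1) (k : ℤ) (F : ℂ → ℂ) :
    (∫ θ in Icc (0 : ℝ) (2 * Real.pi), cexp (θ * I) ^ (-k) * F (c * cexp (θ * I)) =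
      c ^ k * ∫ θ in Icc (0 : ℝ) (2 * Real.pi), cexp (θ * I) ^ (-k) * F (cexp (θ * I))) ∧
    (∫ θ in Icc (0 : ℝ) (2 * Real.pi), cexp (θ * I) ^ (-k) *
        F (c * (starRingEnd ℂ) (cexp (θ * I))) =
      c ^ (-k) * ∫ θ in Icc (0 : ℝ) (2 * Real.pi), cexp (θ * I) ^ k * F (cexp (θ * I))) := by
  obtain ⟨α, hα⟩ : ∃ α : ℝ, c = cexp (α * I) := by
    refine ⟨arg c, ?_⟩
    have := Complex.norm_mul_exp_arg_mul_I c
    rw [hc, ofReal_one, one_mul] at this
    exact this.symm
  have hper : ∀ θ : ℝ, cexp (((θ + 2 * Real.pi : ℝ) : ℂ) * I) = cexp (θ * I) := by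
    intro θ
    push_cast
    rw [add_mul, Complex.exp_add, Complex.exp_two_pi_mul_I, mul_one]
  have hadd : ∀ θ : ℝ, cexp (((θ + α : ℝ) : ℂ) * I) = c * cexp (θ * I) := by
    intro θ
    rw [hα]
    push_cast
    rw [add_mul, Complex.exp_add, mul_comm]
  have hsub : ∀ θ : ℝ, cexp (((α - θ : ℝ) : ℂ) * I) = c * (starRingEnd ℂ) (cexp (θ * I)) := by
    intro θ
    rw [hα, ← Complex.exp_conj, ← Complex.exp_add]
    congr 1
    rw [map_mul, conj_ofReal, conj_I]
    push_cast
    ring
  have hc0 : c ≠ 0 := by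
    intro h
    rw [h, norm_zero] at hc
    exact zero_ne_one hc
  constructor
  · have h1 := per_shift (fun θ : ℝ => cexp (θ * I) ^ (-k) * F (cexp (θ * I)))
      (fun θ => by simp only [hper]) α
    rw [← h1, ← integral_const_mul]
    refine setIntegral_congr_fun measurableSet_Icc fun θ _ => ?_
    simp only [hadd]
    rw [mul_zpow]
    have h2 : c ^ k * (c ^ (-k) * cexp (θ * I) ^ (-k)) = cexp (θ * I) ^ (-k) := by
      rw [← mul_assoc, ← zpow_add₀ hc0, add_neg_cancel, zpow_zero, one_mul]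
    rw [← mul_assoc, h2]
  · have h1 := per_refl (fun θ : ℝ => cexp (θ * I) ^ k * F (cexp (θ * I)))
      (fun θ => by simp only [hper]) α
    rw [← h1, ← integral_const_mul]
    refine setIntegral_congr_fun measurableSet_Icc fun θ _ => ?_
    simp only [hsub]
    have h3 : (starRingEnd ℂ) (cexp (θ * I)) = (cexp (θ * I))⁻¹ := by
      rw [← Complex.exp_conj, ← Complex.exp_neg]
      congr 1
      rw [map_mul, conj_ofReal, conj_I]
      ring
    rw [mul_zpow, h3, inv_zpow, ← zpow_neg]
    have h2 : c ^ (-k) * (c ^ k * cexp (θ * I) ^ (-k)) = cexp (θ * I) ^ (-k) := by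
      rw [← mul_assoc, ← zpow_add₀ hc0, neg_add_cancel, zpow_zero, one_mul]
    rw [← mul_assoc, h2]

/-- the sum at a real place -/
theorem real_alg (c : ℂ) (hc : c = 1 ∨ c = -1) (k : ℤ) (F : ℂ → ℂ) :
    ((1 : ℂ) ^ (-k) * F (c * 1) + (-1) ^ (-k) * F (c * (-1)) =
      c ^ k * ((1 : ℂ) ^ (-k) * F 1 + (-1) ^ (-k) * F (-1))) ∧
    ((1 : ℂ) ^ (-k) * F (c * 1) + (-1) ^ (-k) * F (c * (-1)) =
      c ^ (-k) * ((1 : ℂ) ^ k * F 1 + (-1) ^ k * F (-1))) := by
  have h1 : (-1 : ℂ) ^ (-k) = (-1) ^ k := by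
    rw [zpow_neg, ← inv_zpow]
    norm_num
  have h2 : (-1 : ℂ) ^ k * (-1) ^ k = 1 := by
    rw [← mul_zpow]
    norm_num
  rcases hc with rfl | rfl
  · simp only [one_zpow, one_mul, h1, and_self]
  · simp only [one_zpow, one_mul, h1, mul_one, neg_mul, neg_neg]
    constructor
    · linear_combination (-F (-1)) * h2
    · linear_combination (-F (-1)) * h2

theorem pf_AN : U_AN := by
  classical
  intro K _ _ v x hx k δ a ha
  have hv : 0 < v x := InfinitePlace.pos_iff.2 hx
  have hv' : ((v x : ℝ) : ℂ) ≠ 0 := by exact_mod_cast hv.ne'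
  set c : ℂ := v.embedding x / ((v x : ℝ) : ℂ) with hc
  have hcn : ‖c‖ = 1 := by
    rw [hc, norm_div, InfinitePlace.norm_embedding_eq, Complex.norm_real,
      Real.norm_of_nonneg hv.le, div_self hv.ne']
  have hemb : v.embedding x * (a : ℂ) = ((v x * a : ℝ) : ℂ) * c := by
    rw [hc]
    push_cast
    field_simp
  let F : ℂ → ℂ := fun w => if ‖((v x * a : ℝ) : ℂ) * w - 1‖ ≤ δ then (1 : ℂ) else 0
  have hF : ∀ w : ℂ, (if ‖v.embedding x * (a : ℂ) * w - 1‖ ≤ δ then (1 : ℂ) else 0) =
      F (c * w) := by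
    intro w
    simp only [F]
    rw [hemb, mul_assoc]
  have hF' : ∀ w : ℂ, (if ‖((v x * a : ℝ) : ℂ) * w - 1‖ ≤ δ then (1 : ℂ) else 0) = F w :=
    fun w => rfl
  simp only [hF, hF']
  by_cases hr : v.IsReal
  · have han : ∀ θ : ℝ, an v θ = if θ < Real.pi then 1 else -1 := by
      intro θ
      unfold an
      rw [if_pos hr]
    have hcc : c = 1 ∨ c = -1 := by
      have h1 : ((v.embedding x).im) = 0 := by
        have h2 := (InfinitePlace.isReal_iff.1 hr)
        have h3 := ComplexEmbedding.IsReal.coe_embedding_apply h2 x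
        rw [← h3]
        exact Complex.ofReal_im _
      have h4 : v.embedding x = (((v.embedding x).re : ℝ) : ℂ) := by
        apply Complex.ext
        · simp
        · simp [h1]
      have h5 : c = ((((v.embedding x).re / v x : ℝ)) : ℂ) := by
        rw [hc]
        conv_lhs => rw [h4]
        push_cast
        rfl
      rw [h5, Complex.norm_real, Real.norm_eq_abs, abs_eq (by norm_num)] at hcn
      rcases hcn with h6 | h6
      · left
        rw [h5, h6]
        simp
      · right
        rw [h5, h6]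
        simp
    have hconj : ∀ θ : ℝ, (starRingEnd ℂ) (if θ < Real.pi then 1 else -1) =
        if θ < Real.pi then 1 else -1 := by
      intro θ
      split_ifs <;> simp
    simp only [han, hconj]
    have e1 := real_int (fun w => w ^ (-k) * F (c * w))
    have e2 := real_int (fun w => w ^ (-k) * F w)
    have e3 := real_int (fun w => w ^ k * F w)
    obtain ⟨a1, a2⟩ := real_alg c hcc k F
    constructor
    · rw [e1, e2, a1]
      ring
    · rw [e1, e3, a2]
      ring
  · have han : ∀ θ : ℝ, an v θ = cexp (θ * I) := by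
      intro θ
      unfold an
      rw [if_neg hr]
    simp only [han]
    exact cplx_int c hcn k F

end Pool.Agent.H64.GLB
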