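import Pool.Agent.H23.LC.Targets
import Pool.Agent.H63.HK.DS

/-!
# The dyadic pieces of the two Dirichlet series
-/

set_option autoImplicit false

open NumberField NumberField.InfinitePlace NumberField.Units
  NumberField.Units.dirichletUnitTheorem MeasureTheory Set Filter Complex
open scoped nonZeroDivisors ENNReal

namespace Pool.Agent.H64.GLB

open Pool.Agent.H25.HK Pool.Agent.H23.LB Pool.Agent.H23.LC

section
variable {K : Type} [Field K] [NumberField K]

/-- the ideals of one dyadic piece -/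
def Dy (j : ℕ) (I : NZI K) : Prop := 2 ^ j ≤ Ideal.absNorm I.1 ∧ Ideal.absNorm I.1 < 2 ^ (j + 1)

theorem nz (I : NZI K) : Ideal.absNorm I.1 ≠ 0 := by
  intro h
  exact I.2 (Ideal.absNorm_eq_zero_iff.1 h)

theorem nzp (I : NZI K) : 0 < Ideal.absNorm I.1 := Nat.pos_of_ne_zero (nz I)

theorem dy_finite (j : ℕ) : {I : NZI K | Dy j I}.Finite := by
  have h1 : {I : Ideal (𝓞 K) | Ideal.absNorm I ≤ 2 ^ (j + 1)}.Finite :=
    Ideal.finite_setOfPred_absNorm_le _
  have h2 := Set.Finite.preimage (f := fun I : NZI K => I.1)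
    (Subtype.val_injective.injOn) h1
  refine h2.subset ?_
  intro I hI
  exact hI.2.le

open scoped Classical in
theorem blk_dy (a : Ideal (𝓞 K) → ℂ) (j : ℕ) (s : ℂ) : blk a j s =
    ∑' I : NZI K, if Dy j I then a I.1 * (Ideal.absNorm I.1 : ℂ) ^ (-s) else 0 := by
  unfold blk
  refine tsum_congr fun I => ?_
  by_cases h : Dy j I
  · rw [if_pos h]
    exact if_pos h
  · rw [if_neg h]
    exact if_neg h

open scoped Classical in
theorem blk_eq (a : Ideal (𝓞 K) → ℂ) (j : ℕ) (s : ℂ) : blk a j s =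
    ∑ I ∈ (dy_finite (K := K) j).toFinset, a I.1 * (Ideal.absNorm I.1 : ℂ) ^ (-s) := by
  rw [blk_dy]
  rw [tsum_eq_sum (s := (dy_finite (K := K) j).toFinset)]
  · refine Finset.sum_congr rfl fun I hI => ?_
    rw [Set.Finite.mem_toFinset] at hI
    exact if_pos (show Dy j I from hI)
  · intro I hI
    rw [Set.Finite.mem_toFinset] at hI
    exact if_neg hI

theorem norm_pow (I : NZI K) (s : ℂ) : ‖(Ideal.absNorm I.1 : ℂ) ^ (-s)‖ =
    (Ideal.absNorm I.1 : ℝ) ^ (-s.re) := by
  rw [Complex.norm_natCast_cpow_of_pos (nzp I), Complex.neg_re]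

theorem dy_log (j : ℕ) (I : NZI K) : Dy j I ↔ j = Nat.log 2 (Ideal.absNorm I.1) := by
  unfold Dy
  constructor
  · rintro ⟨h1, h2⟩
    exact (Nat.log_eq_of_pow_le_of_lt_pow h1 h2).symm
  · rintro rfl
    exact ⟨Nat.pow_log_le_self 2 (nz I), Nat.lt_pow_succ_log_self (by norm_num) _⟩

open scoped Classical in
/-- regrouping -/
theorem regroup {E : Type} [NormedAddCommGroup E] [CompleteSpace E] (f : NZI K → E)
    (hf : Summable f) : Summable (fun j : ℕ => ∑' I : NZI K, if Dy j I then f I else 0) ∧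
      ∑' j : ℕ, ∑' I : NZI K, (if Dy j I then f I else 0) = ∑' I, f I := by
  let i : NZI K → ℕ × NZI K := fun I => (Nat.log 2 (Ideal.absNorm I.1), I)
  have hi : Function.Injective i := fun I J h => (Prod.ext_iff.1 h).2
  let g : ℕ × NZI K → E := fun p => if Dy p.1 p.2 then f p.2 else 0
  have hg0 : ∀ p, p ∉ Set.range i → g p = 0 := by
    intro p hp
    refine if_neg fun h => hp ⟨p.2, ?_⟩
    rw [dy_log] at h
    exact Prod.ext h.symm rfl
  have hgi : ∀ I, g (i I) = f I := fun I => if_pos ((dy_log _ _).2 rfl)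
  have hg : Summable g := by
    rw [← hi.summable_iff hg0]
    exact hf.congr fun I => (hgi I).symm
  have h1 := hg.prod
  refine ⟨h1, ?_⟩
  have h2 := hg.tsum_prod
  have h3 : ∑' p, g p = ∑' I, f I := by
    rw [← hi.tsum_eq (f := g)]
    · exact tsum_congr hgi
    · intro p hp
      by_contra hn
      exact hp (hg0 p hn)
  rw [← h3, h2]

end

theorem pf_BK : U_BK := by
  classical
  intro K _ _ a A hA
  have hA0 : 0 ≤ A := (norm_nonneg _).trans (hA ⊤)
  have hsum : ∀ s : ℂ, 1 < s.re →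
      Summable (fun I : NZI K => ‖(Ideal.absNorm I.1 : ℂ) ^ (-s)‖) := fun s hs =>
    (Pool.Agent.H63.HK.ds K s hs).1
  refine ⟨?_, ?_, ?_, ?_, ?_⟩
  · intro j
    have h1 : blk a j = fun s => ∑ I ∈ (dy_finite (K := K) j).toFinset,
        a I.1 * (Ideal.absNorm I.1 : ℂ) ^ (-s) := funext fun s => blk_eq a j s
    rw [h1]
    refine Differentiable.fun_sum fun I _ => ?_
    refine (differentiable_const _).mul ?_
    refine Differentiable.const_cpow (differentiable_id.neg) (Or.inl ?_)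
    exact_mod_cast nz I
  · intro j
    refine ⟨∑ I ∈ (dy_finite (K := K) j).toFinset, ‖a I.1‖, fun s hs => ?_⟩
    rw [blk_eq]
    refine (norm_sum_le _ _).trans (Finset.sum_le_sum fun I _ => ?_)
    rw [norm_mul, norm_pow]
    refine mul_le_of_le_one_right (norm_nonneg _) ?_
    refine Real.rpow_le_one_of_one_le_of_nonpos ?_ (by linarith)
    exact_mod_cast nzp I
  · have h32 := hsum (3 / 2) (by norm_num)
    have h1 := (regroup (fun I : NZI K => A * ‖(Ideal.absNorm I.1 : ℂ) ^ (-(3 / 2 : ℂ))‖)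
      (h32.mul_left A)).1
    refine ⟨_, h1, fun j s hs => ?_⟩
    rw [blk_eq]
    rw [tsum_eq_sum (s := (dy_finite (K := K) j).toFinset)]
    · refine (norm_sum_le _ _).trans (Finset.sum_le_sum fun I hI => ?_)
      rw [Set.Finite.mem_toFinset] at hI
      rw [if_pos (show Dy j I from hI), norm_mul, norm_pow, norm_pow, hs]
      have h2 : ((3 / 2 : ℂ)).re = 3 / 2 := by norm_num
      rw [h2]
      exact mul_le_mul_of_nonneg_right (hA _) (by positivity)
    · intro I hI
      rw [Set.Finite.mem_toFinset] at hI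
      exact if_neg hI
  · intro s hs
    have h1 : Summable (fun I : NZI K => a I.1 * (Ideal.absNorm I.1 : ℂ) ^ (-s)) := by
      refine Summable.of_norm_bounded ((hsum s hs).mul_left A) fun I => ?_
      rw [norm_mul]
      exact mul_le_mul_of_nonneg_right (hA _) (norm_nonneg _)
    simp only [blk_dy]
    exact (regroup _ h1).2
  · intro j σ t hσ
    refine ⟨fun J => if J ≠ ⊥ ∧ 2 ^ j ≤ Ideal.absNorm J ∧ Ideal.absNorm J < 2 ^ (j + 1) then
      (((Ideal.absNorm J : ℝ) ^ (-σ) : ℝ) : ℂ) else 0, ?_, ?_⟩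
    · intro J
      simp only
      split_ifs with h
      · rw [Complex.norm_real, Real.norm_of_nonneg (by positivity)]
        have h1 : ((2 : ℝ) ^ j) ≤ (Ideal.absNorm J : ℝ) := by exact_mod_cast h.2.1
        calc (Ideal.absNorm J : ℝ) ^ (-σ) ≤ ((2 : ℝ) ^ j) ^ (-σ) :=
              Real.rpow_le_rpow_of_nonpos (by positivity) h1 (by linarith)
          _ = (2 : ℝ) ^ (-(j * σ)) := by
              rw [← Real.rpow_natCast, ← Real.rpow_mul (by norm_num)]
              congr 1
              ring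
      · rw [norm_zero]
        positivity
    · unfold blk bs
      refine tsum_congr fun I => ?_
      have hc : ((2 : ℝ) ^ j ≤ (Ideal.absNorm I.1 : ℝ) ∧
          (Ideal.absNorm I.1 : ℝ) < 2 * (2 : ℝ) ^ j) ↔
          (2 ^ j ≤ Ideal.absNorm I.1 ∧ Ideal.absNorm I.1 < 2 ^ (j + 1)) := by
        rw [pow_succ, mul_comm (2 ^ j) 2]
        constructor
        · rintro ⟨h1, h2⟩
          exact ⟨by exact_mod_cast h1, by exact_mod_cast h2⟩
        · rintro ⟨h1, h2⟩
          exact ⟨by exact_mod_cast h1, by exact_mod_cast h2⟩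
      by_cases h : 2 ^ j ≤ Ideal.absNorm I.1 ∧ Ideal.absNorm I.1 < 2 ^ (j + 1)
      · rw [if_pos h, if_pos (hc.2 h)]
        simp only
        rw [if_pos (show I.1 ≠ ⊥ ∧ 2 ^ j ≤ Ideal.absNorm I.1 ∧
          Ideal.absNorm I.1 < 2 ^ (j + 1) from ⟨I.2, h⟩)]
        have h0 : (Ideal.absNorm I.1 : ℂ) ≠ 0 := by exact_mod_cast nz I
        have h1 : (Ideal.absNorm I.1 : ℂ) ^ (-((σ : ℂ) + t * Complex.I)) =
            (Ideal.absNorm I.1 : ℂ) ^ (-(σ : ℂ)) * (Ideal.absNorm I.1 : ℂ) ^ (-(t * Complex.I)) := by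
          rw [← Complex.cpow_add _ _ h0]
          congr 1
          ring
        have h2 : (((Ideal.absNorm I.1 : ℝ) ^ (-σ) : ℝ) : ℂ) =
            (Ideal.absNorm I.1 : ℂ) ^ (-(σ : ℂ)) := by
          rw [Complex.ofReal_cpow (by positivity)]
          push_cast
          rfl
        rw [h1, h2]
        ring
      · rw [if_neg h, if_neg (fun h' => h (hc.1 h'))]

end Pool.Agent.H64.GLB
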